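import Pool.Agent.H42.Cofin1

open Pool.Agent.H42.Cofin

/-- `cofin(M) = add(M)` for the meager ideal of the Cantor space. -/
theorem Pool.Agent.Results.MP_145df4_lc.Meager.result :
    IsLeast (lens SIdl {M : Set (ℕ → Bool) | IsMeagre M})
      (addN {M : Set (ℕ → Bool) | IsMeagre M}).ord :=
  meagre
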